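import Pool.Agent.Helper99.MKV.GoalsA

/-!
# MKV-FMK: the square sum bound for the truncated kernels
-/

set_option autoImplicit false

open Finset

namespace Pool.Agent.Helper89.MKV

open Pool.Agent.Helper99.MKV Pool.Agent.Helper99.EXC Pool.Agent.Helper99.ERW

theorem vec_neg (l : Fin 2) : (vec (l, false) : Site 2) = -vec (l, true) := by
  funext i
  unfold vec
  by_cases h : i = l
  · subst h
    simp
  · simp [h]

theorem summ {K : Finset (Site 2)} {F : Site 2 → ℝ} (h : ∀ x, x ∉ K → F x = 0) : Summable F :=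
  summable_of_ne_finset_zero (s := K) h

theorem shift_zero {K : Finset (Site 2)} {u : Site 2 → ℝ} (h : ∀ x, x ∉ K → u x = 0) (v : Site 2) :
    ∀ x, x ∉ K.image (fun y => y - v) → u (x + v) = 0 := by
  intro x hx
  apply h
  intro h1
  exact hx (Finset.mem_image.2 ⟨x + v, h1, by simp⟩)

/-- Green's identity for one coordinate. -/
theorem green_one {K : Finset (Site 2)} {u : Site 2 → ℝ} (h : ∀ x, x ∉ K → u x = 0) (g : Site 2 → ℝ)
    (l : Fin 2) : ∑' w, secondDiff u l w * g w = ∑' w, u w * secondDiff g l w := by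
  have hs : ∀ v : Site 2, Summable fun w => u (w + v) * g w := fun v =>
    summ (K := K.image fun y => y - v) fun x hx => by rw [shift_zero h v x hx, zero_mul]
  have hs' : ∀ v : Site 2, Summable fun w => u w * g (w + v) := fun v =>
    summ (K := K) fun x hx => by rw [h x hx, zero_mul]
  have ht : ∀ v : Site 2, ∑' w, u (w + v) * g w = ∑' w, u w * g (w + -v) := by
    intro v
    rw [← (Equiv.addRight v).tsum_eq (fun w => u w * g (w + -v))]
    refine tsum_congr fun w => ?_
    simp
  have hs0 : Summable fun w => 2 * (u w * g w) :=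
    (summ (K := K) (F := fun w => u w * g w) fun x hx => by rw [h x hx, zero_mul]).mul_left 2
  have e1 : ∀ w, secondDiff u l w * g w =
      (u (w + vec (l, true)) * g w + u (w + vec (l, false)) * g w) - 2 * (u w * g w) := by
    intro w
    unfold secondDiff
    ring
  have e2 : ∀ w, u w * secondDiff g l w =
      (u w * g (w + vec (l, false)) + u w * g (w + vec (l, true))) - 2 * (u w * g w) := by
    intro w
    unfold secondDiff
    ring
  rw [tsum_congr e1, tsum_congr e2, ((hs _).add (hs _)).tsum_sub hs0, (hs _).tsum_add (hs _),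
    ((hs' _).add (hs' _)).tsum_sub hs0, (hs' _).tsum_add (hs' _), ht, ht, vec_neg, neg_neg]

theorem sd_zero {K : Finset (Site 2)} {u : Site 2 → ℝ} (h : ∀ x, x ∉ K → u x = 0) (l : Fin 2) :
    ∃ K' : Finset (Site 2), ∀ x, x ∉ K' → secondDiff u l x = 0 := by
  refine ⟨(K.image fun y => y - vec (l, true)) ∪ (K.image fun y => y - vec (l, false)) ∪ K,
    fun x hx => ?_⟩
  rw [Finset.mem_union, Finset.mem_union, not_or, not_or] at hx
  unfold secondDiff
  rw [shift_zero h _ x hx.1.1, shift_zero h _ x hx.1.2, h x hx.2]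
  ring

/-- Green's identity. -/
theorem green {K : Finset (Site 2)} {u : Site 2 → ℝ} (h : ∀ x, x ∉ K → u x = 0) (g : Site 2 → ℝ)
    (a : ℝ) : ∑' w, La a u w * g w = ∑' w, u w * La a g w := by
  have h0 := green_one h g 0
  have h1 := green_one h g 1
  have s1 : ∀ l, Summable fun w => secondDiff u l w * g w := fun l => by
    obtain ⟨K', hK'⟩ := sd_zero h l
    exact summ (K := K') fun x hx => by rw [hK' x hx, zero_mul]
  have s2 : ∀ l, Summable fun w => u w * secondDiff g l w := fun l =>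
    summ (K := K) fun x hx => by rw [h x hx, zero_mul]
  have e1 : ∀ w, La a u w * g w =
      a / 2 * (secondDiff u 0 w * g w) + (1 - a) / 2 * (secondDiff u 1 w * g w) := by
    intro w
    unfold La
    ring
  have e2 : ∀ w, u w * La a g w =
      a / 2 * (u w * secondDiff g 0 w) + (1 - a) / 2 * (u w * secondDiff g 1 w) := by
    intro w
    unfold La
    ring
  rw [tsum_congr e1, tsum_congr e2, ((s1 0).mul_left _).tsum_add ((s1 1).mul_left _),
    ((s2 0).mul_left _).tsum_add ((s2 1).mul_left _), tsum_mul_left, tsum_mul_left, tsum_mul_left,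
    tsum_mul_left, h0, h1]

theorem sd_refl (φ : Site 2 → ℝ) (x w : Site 2) (l : Fin 2) :
    secondDiff (fun w => φ (x - w)) l w = secondDiff φ l (x - w) := by
  unfold secondDiff
  rw [vec_neg]
  have h1 : x - (w + vec (l, true)) = x - w + -vec (l, true) := by abel
  have h2 : x - (w + -vec (l, true)) = x - w + vec (l, true) := by abel
  simp only [h1, h2]
  ring

section

variable {a : ℝ} {φ : Site 2 → ℝ} {Φ : ℕ → Site 2 → ℝ} {κ C : ℝ} {b k1 : ℕ}

theorem La_sub (F G : Site 2 → ℝ) (x : Site 2) : La a (fun w => F w - G w) x = La a F x - La a G x := by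
  unfold La secondDiff
  ring

theorem base (hS : Scl a φ Φ κ C b k1) {k : ℕ} (hk : k1 ≤ k) (g : Site 2 → ℝ) :
    ∑ w ∈ Bx b k, La a (Φ k) w * g w - g 0 = ∑' w, (Φ k w - φ w) * La a g w := by
  have h1 : ∀ x, x ∉ Bx b k → Φ k x - φ x = 0 := fun x hx => by rw [hS.out k hk x hx, sub_self]
  rw [← green h1 g a]
  have e : ∀ w, La a (fun w => Φ k w - φ w) w * g w =
      La a (Φ k) w * g w - (if w = 0 then g 0 else 0) := by
    intro w
    rw [La_sub, hS.lap]
    split_ifs with h
    · rw [h]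
      ring
    · ring
  have s1 : Summable fun w => La a (Φ k) w * g w :=
    summ (K := Bx b k) fun x hx => by rw [hS.muS k hk x hx, zero_mul]
  have s2 : Summable fun w : Site 2 => if w = 0 then g 0 else 0 :=
    summ (K := {0}) fun x hx => by
      rw [Finset.mem_singleton] at hx
      rw [if_neg hx]
  rw [tsum_congr e, s1.tsum_sub s2, tsum_ite_eq,
    tsum_eq_sum (s := Bx b k) fun x hx => by rw [hS.muS k hk x hx, zero_mul]]

theorem mu_sum (hS : Scl a φ Φ κ C b k1) {k : ℕ} (hk : k1 ≤ k) :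
    ∑ w ∈ Bx b k, La a (Φ k) w = 1 := by
  have h := base hS hk (fun _ => 1)
  have h1 : ∀ w, (Φ k w - φ w) * La a (fun _ => (1 : ℝ)) w = 0 := by
    intro w
    have : La a (fun _ : Site 2 => (1 : ℝ)) w = 0 := by
      unfold La secondDiff
      ring
    rw [this, mul_zero]
  rw [tsum_congr h1, tsum_zero] at h
  simp only [mul_one] at h
  linarith

theorem repr (hS : Scl a φ Φ κ C b k1) {k : ℕ} (hk : k1 ≤ k) (x : Site 2) :
    Φ k x = ∑ w ∈ Bx b k, La a (Φ k) w * φ (x - w) := by
  have h := base hS hk (fun w => φ (x - w))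
  have h1 : ∀ w, (Φ k w - φ w) * La a (fun w => φ (x - w)) w = if w = x then Φ k x - φ x else 0 := by
    intro w
    have h2 : La a (fun w => φ (x - w)) w = La a φ (x - w) := by
      unfold La
      rw [sd_refl, sd_refl]
    rw [h2, hS.lap]
    by_cases h3 : w = x
    · subst h3
      simp
    · have h4 : x - w ≠ 0 := fun h4 => h3 (sub_eq_zero.1 h4).symm
      rw [if_neg h4, if_neg h3, mul_zero]
  rw [tsum_congr h1, tsum_ite_eq, sub_zero] at h
  linarith

theorem Df_repr (hS : Scl a φ Φ κ C b k1) {k : ℕ} (hk : k1 ≤ k) (x : Site 2) :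
    Df (Φ k) x = ∑ w ∈ Bx b k, La a (Φ k) w * Df φ (x - w) := by
  have h := repr hS hk
  have e : ∀ w, La a (Φ k) w * Df φ (x - w) =
      (La a (Φ k) w * φ (x + vec (0, true) - w) + La a (Φ k) w * φ (x + vec (0, false) - w) -
        (La a (Φ k) w * φ (x + vec (1, true) - w) + La a (Φ k) w * φ (x + vec (1, false) - w))) / 2 := by
    intro w
    unfold Df secondDiff
    have h1 : ∀ v : Site 2, x - w + v = x + v - w := fun v => by abel
    rw [h1, h1, h1, h1]
    ring
  rw [Finset.sum_congr rfl fun w _ => e w, ← Finset.sum_div, Finset.sum_sub_distrib, Finset.sum_add_distrib,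
    Finset.sum_add_distrib, ← h, ← h, ← h, ← h]
  unfold Df secondDiff
  ring

end

open Classical in
/-- the translated form -/
theorem form_shift {φ : Site 2 → ℝ} {C : ℝ}
    (hform : ∀ (B : Finset (Site 2)) (f g : Site 2 → ℝ),
      |∑ z ∈ B, ∑ y ∈ B, f z * Df φ (y - z) * g y| ≤
        C * Real.sqrt (∑ z ∈ B, f z ^ 2) * Real.sqrt (∑ y ∈ B, g y ^ 2))
    (B : Finset (Site 2)) (f g : Site 2 → ℝ) (w : Site 2) :
    |∑ z ∈ B, ∑ y ∈ B, f z * Df φ (y - z - w) * g y| ≤
      C * Real.sqrt (∑ z ∈ B, f z ^ 2) * Real.sqrt (∑ y ∈ B, g y ^ 2) := by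
  let B' : Finset (Site 2) := B.image fun y => y - w
  let f' : Site 2 → ℝ := fun z => if z ∈ B then f z else 0
  let g' : Site 2 → ℝ := fun y => if y ∈ B' then g (y + w) else 0
  have hf : ∀ F : Site 2 → ℝ, ∑ z ∈ B ∪ B', f' z * F z = ∑ z ∈ B, f z * F z := by
    intro F
    rw [← Finset.sum_subset (Finset.subset_union_left (s₁ := B) (s₂ := B')) fun z _ hz => by
      simp only [f', if_neg hz, zero_mul]]
    refine Finset.sum_congr rfl fun z hz => ?_
    simp only [f', if_pos hz]
  have hg : ∀ F : Site 2 → ℝ, ∑ y ∈ B ∪ B', F y * g' y = ∑ y ∈ B, F (y - w) * g y := by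
    intro F
    rw [← Finset.sum_subset (Finset.subset_union_right (s₁ := B) (s₂ := B')) fun z _ hz => by
      simp only [g', if_neg hz, mul_zero]]
    have h1 : ∀ y ∈ B', F y * g' y = F y * g (y + w) := fun y hy => by
      simp only [g', if_pos hy]
    rw [Finset.sum_congr rfl h1]
    rw [Finset.sum_image fun x _ y _ h => sub_left_injective h]
    refine Finset.sum_congr rfl fun y _ => ?_
    rw [sub_add_cancel]
  have h := hform (B ∪ B') f' g'
  have e1 : ∑ z ∈ B ∪ B', ∑ y ∈ B ∪ B', f' z * Df φ (y - z) * g' y =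
      ∑ z ∈ B, ∑ y ∈ B, f z * Df φ (y - z - w) * g y := by
    have h1 : ∀ z, ∑ y ∈ B ∪ B', f' z * Df φ (y - z) * g' y =
        f' z * ∑ y ∈ B, Df φ (y - w - z) * g y := by
      intro z
      rw [← hg fun y => Df φ (y - z), Finset.mul_sum]
      refine Finset.sum_congr rfl fun y _ => ?_
      ring
    rw [Finset.sum_congr rfl fun z _ => h1 z, hf]
    refine Finset.sum_congr rfl fun z _ => ?_
    rw [Finset.mul_sum]
    refine Finset.sum_congr rfl fun y _ => ?_
    rw [sub_right_comm]
    ring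
  have e2 : ∑ z ∈ B ∪ B', f' z ^ 2 = ∑ z ∈ B, f z ^ 2 := by
    have h1 : ∀ z, f' z ^ 2 = f' z * f' z := fun z => by ring
    rw [Finset.sum_congr rfl fun z _ => h1 z, hf]
    refine Finset.sum_congr rfl fun z hz => ?_
    simp only [f', if_pos hz]
    ring
  have e3 : ∑ y ∈ B ∪ B', g' y ^ 2 = ∑ y ∈ B, g y ^ 2 := by
    have h1 : ∀ z, g' z ^ 2 = g' z * g' z := fun z => by ring
    rw [Finset.sum_congr rfl fun z _ => h1 z, hg]
    refine Finset.sum_congr rfl fun y hy => ?_
    have h2 : y - w ∈ B' := Finset.mem_image_of_mem _ hy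
    simp only [g', if_pos h2]
    rw [sub_add_cancel]
    ring
  rw [e1, e2, e3] at h
  exact h

theorem FMK : FMK_stmt := by
  intro a φ Φ κ C b k1 hS k hk B f g
  have h1 : ∑ z ∈ B, ∑ y ∈ B, f z * Df (Φ k) (y - z) * g y =
      ∑ w ∈ Bx b k, La a (Φ k) w * ∑ z ∈ B, ∑ y ∈ B, f z * Df φ (y - z - w) * g y := by
    have e : ∀ z y, f z * Df (Φ k) (y - z) * g y =
        ∑ w ∈ Bx b k, La a (Φ k) w * (f z * Df φ (y - z - w) * g y) := by
      intro z y
      rw [Df_repr hS hk, Finset.mul_sum, Finset.sum_mul]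
      refine Finset.sum_congr rfl fun w _ => ?_
      ring
    simp only [e]
    have e2 : ∀ z, ∑ y ∈ B, ∑ w ∈ Bx b k, La a (Φ k) w * (f z * Df φ (y - z - w) * g y) =
        ∑ w ∈ Bx b k, La a (Φ k) w * ∑ y ∈ B, f z * Df φ (y - z - w) * g y := by
      intro z
      rw [Finset.sum_comm]
      refine Finset.sum_congr rfl fun w _ => ?_
      rw [Finset.mul_sum]
    rw [Finset.sum_congr rfl fun z _ => e2 z, Finset.sum_comm]
    refine Finset.sum_congr rfl fun w _ => ?_
    rw [Finset.mul_sum]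
  rw [h1]
  refine (Finset.abs_sum_le_sum_abs _ _).trans ?_
  have h2 : ∀ w ∈ Bx b k, |La a (Φ k) w * ∑ z ∈ B, ∑ y ∈ B, f z * Df φ (y - z - w) * g y| ≤
      La a (Φ k) w * (C * Real.sqrt (∑ z ∈ B, f z ^ 2) * Real.sqrt (∑ y ∈ B, g y ^ 2)) := by
    intro w _
    rw [abs_mul, abs_of_nonneg (hS.mu0 k hk w)]
    exact mul_le_mul_of_nonneg_left (form_shift hS.form B f g w) (hS.mu0 k hk w)
  refine (Finset.sum_le_sum h2).trans ?_
  rw [← Finset.sum_mul, mu_sum hS hk, one_mul]

end Pool.Agent.Helper89.MKV
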