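import Pool.Agent.Helper99.MKV.GoalsR

/-!
# MKV-MKP: the Markov property of the field of stacks
-/

set_option autoImplicit false

open Finset MeasureTheory ProbabilityTheory Filter
open scoped ENNReal

namespace Pool.Agent.Helper89.MKV

open Pool.Agent.Helper99.MKV Pool.Agent.Helper99.EXC Pool.Agent.Helper99.ERW

section

variable {E : Type} [Fintype E] [MeasurableSpace E] [MeasurableSingletonClass E]

/-- Two finite measures on `ι → E` which agree on arbitrarily large cylinders are equal. -/
theorem ext_pi {ι : Type} [Nonempty E] (m1 m2 : Measure (ι → E)) [IsFiniteMeasure m1]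
    (h : ∀ J : Finset ι, ∃ K : Finset ι, J ⊆ K ∧ ∀ x : ι → E,
      m1 {ω | ∀ q ∈ K, ω q = x q} = m2 {ω | ∀ q ∈ K, ω q = x q}) : m1 = m2 := by
  refine IsProjectiveLimit.unique (P := fun I => m1.map I.restrict) (fun I => rfl) (fun I => ?_)
  obtain ⟨K, hK, hx⟩ := h I
  have hm : ∀ m : Measure (ι → E),
      m.map I.restrict = (m.map K.restrict).map (Finset.restrict₂ (π := fun _ => E) hK) := by
    intro m
    rw [Measure.map_map (Finset.measurable_restrict₂ hK) (Finset.measurable_restrict K)]
    rfl
  change m2.map I.restrict = m1.map I.restrict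
  rw [hm m2, hm m1]
  congr 1
  refine Measure.ext_of_singleton fun y => ?_
  rw [Measure.map_apply (Finset.measurable_restrict K) (measurableSet_singleton y),
    Measure.map_apply (Finset.measurable_restrict K) (measurableSet_singleton y)]
  classical
  have e : (K.restrict ⁻¹' {y} : Set (ι → E)) =
      {ω | ∀ q ∈ K, ω q = (fun q => if h : q ∈ K then y ⟨q, h⟩ else Classical.arbitrary E) q} := by
    ext ω
    constructor
    · intro hω q hq
      have h1 : K.restrict ω = y := hω
      change ω q = if h : q ∈ K then y ⟨q, h⟩ else Classical.arbitrary E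
      rw [dif_pos hq, ← h1]
      rfl
    · intro hω
      change K.restrict ω = y
      funext q
      have h1 := hω q.1 q.2
      change ω q.1 = if h : q.1 ∈ K then y ⟨q.1, h⟩ else Classical.arbitrary E at h1
      rw [dif_pos q.2] at h1
      exact h1
  rw [e]
  exact (hx _).symm

/-- Two finite measures on the stacks which agree on arbitrarily large cylinders are equal. -/
theorem ext_nested [Nonempty E] (m1 m2 : Measure (Site 2 → ℕ → E)) [IsFiniteMeasure m1]
    (h : ∀ (F : Finset (Site 2)) (n : Site 2 → ℕ), ∃ (F' : Finset (Site 2)) (n' : Site 2 → ℕ),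
      F ⊆ F' ∧ (∀ z ∈ F, n z ≤ n' z) ∧ ∀ x : Site 2 → ℕ → E,
        m1 {ξ | ∀ z ∈ F', ∀ j ≤ n' z, ξ z j = x z j} =
          m2 {ξ | ∀ z ∈ F', ∀ j ≤ n' z, ξ z j = x z j}) : m1 = m2 := by
  classical
  let e : (Site 2 × ℕ → E) ≃ᵐ (Site 2 → ℕ → E) := MeasurableEquiv.curry (Site 2) ℕ E
  have h1 : m1.map e.symm = m2.map e.symm := by
    have : IsFiniteMeasure (m1.map e.symm) := by infer_instance
    refine ext_pi _ _ fun J => ?_
    obtain ⟨F', n', hF, hn, hx⟩ := h (J.image Prod.fst) (fun _ => J.sup Prod.snd)
    let K : Finset (Site 2 × ℕ) := F'.biUnion fun z => (Finset.range (n' z + 1)).image (Prod.mk z)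
    have hK : ∀ q : Site 2 × ℕ, q ∈ K ↔ q.1 ∈ F' ∧ q.2 ≤ n' q.1 := by
      rintro ⟨z, j⟩
      simp only [K, Finset.mem_biUnion, Finset.mem_image, Finset.mem_range, Prod.mk.injEq]
      constructor
      · rintro ⟨z', hz', j', hj', rfl, rfl⟩
        exact ⟨hz', by omega⟩
      · rintro ⟨hz, hj⟩
        exact ⟨z, hz, j, by omega, rfl, rfl⟩
    refine ⟨K, fun q hq => ?_, fun x => ?_⟩
    · rw [hK]
      have h2 : q.1 ∈ J.image Prod.fst := Finset.mem_image_of_mem _ hq
      exact ⟨hF h2, (Finset.le_sup (f := Prod.snd) hq).trans (hn _ h2)⟩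
    · rw [MeasurableEquiv.map_apply, MeasurableEquiv.map_apply]
      have h3 : (e.symm ⁻¹' {ω | ∀ q ∈ K, ω q = x q} : Set (Site 2 → ℕ → E)) =
          {ξ | ∀ z ∈ F', ∀ j ≤ n' z, ξ z j = (fun z j => x (z, j)) z j} := by
        ext ξ
        constructor
        · intro hξ z hz j hj
          exact hξ (z, j) ((hK _).2 ⟨hz, hj⟩)
        · rintro hξ ⟨z, j⟩ hq
          exact hξ z ((hK _).1 hq).1 j ((hK _).1 hq).2
      rw [h3]
      exact hx _
  exact e.symm.map_measurableEquiv_injective h1

omit [Fintype E] in
theorem meas_cyl (F : Finset (Site 2)) (n : Site 2 → ℕ) (x : Site 2 → ℕ → E) :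
    MeasurableSet {ξ : Site 2 → ℕ → E | ∀ z ∈ F, ∀ j ≤ n z, ξ z j = x z j} := by
  have e : {ξ : Site 2 → ℕ → E | ∀ z ∈ F, ∀ j ≤ n z, ξ z j = x z j} =
      ⋂ z : Site 2, ⋂ _ : z ∈ F, ⋂ j : ℕ, ⋂ _ : j ≤ n z, {ξ | ξ z j = x z j} := by
    ext ξ
    simp
  rw [e]
  refine MeasurableSet.iInter fun z => MeasurableSet.iInter fun _ => MeasurableSet.iInter fun j =>
    MeasurableSet.iInter fun _ => ?_
  have h : Measurable fun ξ : Site 2 → ℕ → E => ξ z j := by fun_prop
  exact h (measurableSet_singleton (x z j))

end

open Classical in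
theorem MKP : MKP_stmt := by
  intro E _ _ _ p ν Q _ hp hQ
  obtain ⟨ξ0⟩ : Nonempty (Site 2 → ℕ → E) := nonempty_of_isProbabilityMeasure Q
  have hne : Nonempty E := ⟨ξ0 0 0⟩
  have hν1 : ν Set.univ = 1 := by
    have h := hQ ∅ (fun _ => 0) ξ0
    simp only [Finset.notMem_empty, false_imp_iff, implies_true, Set.ofPred_true, measure_univ,
      Finset.prod_empty, mul_one] at h
    exact h.symm
  constructor
  · have : IsFiniteMeasure ν := ⟨by rw [hν1]; exact ENNReal.one_lt_top⟩
    refine ext_pi ν (Q.map fun ξ z => ξ z 0) fun J => ⟨J, Finset.Subset.refl _, fun x => ?_⟩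
    have hm : MeasurableSet {ω : Site 2 → E | ∀ q ∈ J, ω q = x q} := by
      have e : {ω : Site 2 → E | ∀ q ∈ J, ω q = x q} = ⋂ z : Site 2, ⋂ _ : z ∈ J, {ω | ω z = x z} := by
        ext ξ
        simp
      rw [e]
      refine MeasurableSet.iInter fun z => MeasurableSet.iInter fun _ => ?_
      have h : Measurable fun ω : Site 2 → E => ω z := by fun_prop
      exact h (measurableSet_singleton (x z))
    rw [Measure.map_apply (by fun_prop) hm]
    have h := hQ J (fun _ => 0) (fun z _ => x z)
    simp only [Finset.range_zero, Finset.prod_empty, Finset.prod_const_one, mul_one] at h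
    rw [← h]
    congr 1
    ext ξ
    constructor
    · intro h1 q hq
      exact h1 q hq 0 le_rfl
    · intro h1 q hq j hj
      rw [Nat.le_zero.1 hj]
      exact h1 q hq
  · intro L x0 i G hG hGL
    let T : (Site 2 → ℕ → E) → Site 2 → ℕ → E := fun ξ z j => ξ z (min j (L z))
    have hT : Measurable T := by
      refine measurable_pi_lambda _ fun z => measurable_pi_lambda _ fun j => ?_
      change Measurable fun ξ : Site 2 → ℕ → E => ξ z (min j (L z))
      fun_prop
    have hGT : ∀ ξ, G ξ = G (T ξ) := fun ξ => hGL ξ (T ξ) fun z j hj => by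
      change ξ z j = ξ z (min j (L z))
      rw [min_eq_left hj]
    let S1 : Set (Site 2 → ℕ → E) := {ξ | ξ x0 (L x0 + 1) = i}
    have hS1 : MeasurableSet S1 := by
      have h : Measurable fun ξ : Site 2 → ℕ → E => ξ x0 (L x0 + 1) := by fun_prop
      exact h (measurableSet_singleton i)
    let d : (Site 2 → ℕ → E) → ℝ≥0∞ := fun ξ => ENNReal.ofReal (p (ξ x0 (L x0)) i)
    have hd : Measurable d := by
      have h1 : Measurable fun e : E => ENNReal.ofReal (p e i) := measurable_of_countable _
      have h2 : Measurable fun ξ : Site 2 → ℕ → E => ξ x0 (L x0) := by fun_prop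
      exact h1.comp h2
    have key : (Q.restrict S1).map T = (Q.withDensity d).map T := by
      have : IsFiniteMeasure ((Q.restrict S1).map T) := by infer_instance
      refine ext_nested _ _ fun F n => ⟨insert x0 F, fun z => max (n z) (L z),
        Finset.subset_insert _ _, fun z _ => le_max_left _ _, fun x => ?_⟩
      have hC := meas_cyl (insert x0 F) (fun z => max (n z) (L z)) x
      rw [Measure.map_apply hT hC, Measure.map_apply hT hC, Measure.restrict_apply (hT hC),
        withDensity_apply _ (hT hC)]
      by_cases hA : ∀ z ∈ insert x0 F, ∀ j ≤ max (n z) (L z), x z j = x z (min j (L z))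
      · have hD : T ⁻¹' {ξ | ∀ z ∈ insert x0 F, ∀ j ≤ max (n z) (L z), ξ z j = x z j} =
            {ξ | ∀ z ∈ insert x0 F, ∀ j ≤ L z, ξ z j = x z j} := by
          ext ξ
          constructor
          · intro h z hz j hj
            have h1 : ξ z (min j (L z)) = x z j := h z hz j (hj.trans (le_max_right _ _))
            rwa [min_eq_left hj] at h1
          · intro h z hz j hj
            change ξ z (min j (L z)) = x z j
            rw [hA z hz j hj]
            exact h z hz _ (min_le_right _ _)
        rw [hD]
        let L' : Site 2 → ℕ := Function.update L x0 (L x0 + 1)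
        let x' : Site 2 → ℕ → E := Function.update x x0 (Function.update (x x0) (L x0 + 1) i)
        have hL0 : L' x0 = L x0 + 1 := Function.update_self _ _ _
        have hL1 : ∀ z, z ≠ x0 → L' z = L z := fun z hz => Function.update_of_ne hz _ _
        have hx0 : x' x0 = Function.update (x x0) (L x0 + 1) i := Function.update_self _ _ _
        have hx1 : ∀ z, z ≠ x0 → x' z = x z := fun z hz => Function.update_of_ne hz _ _
        have hx2 : x' x0 (L x0 + 1) = i := by rw [hx0, Function.update_self]
        have hx3 : ∀ z j, j ≤ L z → x' z j = x z j := by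
          intro z j hj
          by_cases hz : z = x0
          · subst hz
            rw [hx0, Function.update_of_ne (by omega)]
          · rw [hx1 z hz]
        have hmem : x0 ∈ insert x0 F := Finset.mem_insert_self _ _
        have e1 : {ξ : Site 2 → ℕ → E | ∀ z ∈ insert x0 F, ∀ j ≤ L z, ξ z j = x z j} ∩ S1 =
            {ξ | ∀ z ∈ insert x0 F, ∀ j ≤ L' z, ξ z j = x' z j} := by
          ext ξ
          constructor
          · rintro ⟨h1, h2⟩ z hz j hj
            by_cases hj' : j ≤ L z
            · rw [hx3 z j hj']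
              exact h1 z hz j hj'
            · by_cases hz0 : z = x0
              · subst hz0
                rw [hL0] at hj
                have hj2 : j = L z + 1 := by omega
                rw [hj2, hx2]
                exact h2
              · rw [hL1 z hz0] at hj
                exact absurd hj hj'
          · intro h
            refine ⟨fun z hz j hj => ?_, ?_⟩
            · rw [← hx3 z j hj]
              refine h z hz j ?_
              by_cases hz0 : z = x0
              · subst hz0
                rw [hL0]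
                omega
              · rw [hL1 z hz0]
                exact hj
            · have h3 := h x0 hmem (L x0 + 1) hL0.ge
              rw [hx2] at h3
              exact h3
        rw [e1, hQ (insert x0 F) L' x']
        have hDm := meas_cyl (insert x0 F) L x
        have e2 : ∫⁻ ξ in {ξ | ∀ z ∈ insert x0 F, ∀ j ≤ L z, ξ z j = x z j}, d ξ ∂Q =
            ENNReal.ofReal (p (x x0 (L x0)) i) *
              Q {ξ | ∀ z ∈ insert x0 F, ∀ j ≤ L z, ξ z j = x z j} := by
          rw [← setLIntegral_const]
          refine setLIntegral_congr_fun hDm fun ξ hξ => ?_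
          change ENNReal.ofReal (p (ξ x0 (L x0)) i) = _
          rw [hξ x0 hmem (L x0) le_rfl]
        rw [e2, hQ (insert x0 F) L x]
        have e3 : {ζ : Site 2 → E | ∀ z ∈ insert x0 F, ζ z = x' z 0} =
            {ζ | ∀ z ∈ insert x0 F, ζ z = x z 0} := by
          ext ζ
          simp only [Set.mem_ofPred_eq, hx3 _ 0 (Nat.zero_le _)]
        have e4 : ∏ z ∈ insert x0 F, ∏ j ∈ Finset.range (L' z), ENNReal.ofReal (p (x' z j) (x' z (j + 1))) =
            ENNReal.ofReal (p (x x0 (L x0)) i) *
              ∏ z ∈ insert x0 F, ∏ j ∈ Finset.range (L z), ENNReal.ofReal (p (x z j) (x z (j + 1))) := by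
          rw [← Finset.mul_prod_erase _ _ hmem, ← Finset.mul_prod_erase (insert x0 F)
            (fun z => ∏ j ∈ Finset.range (L z), ENNReal.ofReal (p (x z j) (x z (j + 1)))) hmem]
          have e5 : ∏ z ∈ (insert x0 F).erase x0, ∏ j ∈ Finset.range (L' z),
              ENNReal.ofReal (p (x' z j) (x' z (j + 1))) =
              ∏ z ∈ (insert x0 F).erase x0, ∏ j ∈ Finset.range (L z),
              ENNReal.ofReal (p (x z j) (x z (j + 1))) := by
            refine Finset.prod_congr rfl fun z hz => ?_
            have hz0 := Finset.ne_of_mem_erase hz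
            rw [hL1 z hz0, hx1 z hz0]
          have e6 : ∏ j ∈ Finset.range (L' x0), ENNReal.ofReal (p (x' x0 j) (x' x0 (j + 1))) =
              ENNReal.ofReal (p (x x0 (L x0)) i) *
                ∏ j ∈ Finset.range (L x0), ENNReal.ofReal (p (x x0 j) (x x0 (j + 1))) := by
            rw [hL0, Finset.prod_range_succ, mul_comm, hx2, hx3 x0 (L x0) le_rfl]
            congr 1
            refine Finset.prod_congr rfl fun j hj => ?_
            rw [Finset.mem_range] at hj
            rw [hx3 x0 j hj.le, hx3 x0 (j + 1) hj]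
          rw [e5, e6, mul_assoc]
        rw [e3, e4]
        ring
      · have hD : T ⁻¹' {ξ | ∀ z ∈ insert x0 F, ∀ j ≤ max (n z) (L z), ξ z j = x z j} = ∅ := by
          rw [Set.eq_empty_iff_forall_notMem]
          intro ξ hξ
          apply hA
          intro z hz j hj
          have h1 : ξ z (min j (L z)) = x z j := hξ z hz j hj
          have h2 : ξ z (min (min j (L z)) (L z)) = x z (min j (L z)) :=
            hξ z hz _ ((min_le_right _ _).trans (le_max_right _ _))
          rw [min_eq_left (min_le_right _ _)] at h2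
          rw [← h1, ← h2]
        rw [hD]
        simp
    calc ∫⁻ ξ in {ξ | ξ x0 (L x0 + 1) = i}, G ξ ∂Q = ∫⁻ ξ, G (T ξ) ∂(Q.restrict S1) :=
          lintegral_congr fun ξ => hGT ξ
      _ = ∫⁻ ξ, G ξ ∂((Q.restrict S1).map T) := (lintegral_map hG hT).symm
      _ = ∫⁻ ξ, G ξ ∂((Q.withDensity d).map T) := by rw [key]
      _ = ∫⁻ ξ, G (T ξ) ∂(Q.withDensity d) := lintegral_map hG hT
      _ = ∫⁻ ξ, G ξ ∂(Q.withDensity d) := lintegral_congr fun ξ => (hGT ξ).symm
      _ = ∫⁻ ξ, (d * G) ξ ∂Q := lintegral_withDensity_eq_lintegral_mul _ hd hG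
      _ = ∫⁻ ξ, G ξ * ENNReal.ofReal (p (ξ x0 (L x0)) i) ∂Q :=
          lintegral_congr fun ξ => mul_comm _ _

end Pool.Agent.Helper89.MKV
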