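import Pool.Agent.Helper99.MKV.GoalsA
import Pool.Agent.Helper61.EXC.LAT

/-!
# SMS: lattice sums (project MKV)
-/

open Finset

namespace Pool.Agent.Helper89.MKV

open Pool.Agent.Helper99.MKV Pool.Agent.Helper99.EXC Pool.Agent.Helper99.ERW
open Pool.Agent.Helper61.EXC

lemma mem_box_nm {m : ℕ} {x : Site 2} : x ∈ box 2 m ↔ nm x ≤ m := by
  rw [mem_box]
  unfold nm
  rw [max_le_iff]
  constructor
  · intro h
    constructor
    · have h0 := h 0
      have : ((|x 0| : ℤ) : ℝ) ≤ ((m : ℤ) : ℝ) := by exact_mod_cast h0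
      rw [Int.cast_abs] at this
      simpa using this
    · have h0 := h 1
      have : ((|x 1| : ℤ) : ℝ) ≤ ((m : ℤ) : ℝ) := by exact_mod_cast h0
      rw [Int.cast_abs] at this
      simpa using this
  · rintro ⟨h0, h1⟩ l
    have key : ∀ j : Fin 2, |(x j : ℝ)| ≤ (m : ℝ) → |x j| ≤ (m : ℤ) := by
      intro j hj
      have : ((|x j| : ℤ) : ℝ) ≤ ((m : ℤ) : ℝ) := by
        rw [Int.cast_abs]
        simpa using hj
      exact_mod_cast this
    fin_cases l
    · exact key 0 h0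
    · exact key 1 h1

lemma nm_tri (x z : Site 2) : nm x ≤ nm z + nm (z - x) := by
  unfold nm
  apply max_le
  · have h1 : |(x 0 : ℝ)| ≤ |(z 0 : ℝ)| + |((z - x) 0 : ℝ)| := by
      have h2 : (x 0 : ℝ) = z 0 - ((z - x) 0 : ℤ) := by
        rw [Pi.sub_apply]
        push_cast
        ring
      rw [h2]
      exact abs_sub _ _
    exact h1.trans (add_le_add (le_max_left _ _) (le_max_left _ _))
  · have h1 : |(x 1 : ℝ)| ≤ |(z 1 : ℝ)| + |((z - x) 1 : ℝ)| := by
      have h2 : (x 1 : ℝ) = z 1 - ((z - x) 1 : ℤ) := by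
        rw [Pi.sub_apply]
        push_cast
        ring
      rw [h2]
      exact abs_sub _ _
    exact h1.trans (add_le_add (le_max_right _ _) (le_max_right _ _))

lemma nm_sub_le' (u z : Site 2) : nm (u - z) ≤ nm u + nm z := by
  unfold nm
  apply max_le
  · have h1 : |((u - z) 0 : ℝ)| ≤ |(u 0 : ℝ)| + |(z 0 : ℝ)| := by
      rw [Pi.sub_apply]
      push_cast
      exact abs_sub _ _
    exact h1.trans (add_le_add (le_max_left _ _) (le_max_left _ _))
  · have h1 : |((u - z) 1 : ℝ)| ≤ |(u 1 : ℝ)| + |(z 1 : ℝ)| := by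
      rw [Pi.sub_apply]
      push_cast
      exact abs_sub _ _
    exact h1.trans (add_le_add (le_max_right _ _) (le_max_right _ _))

lemma card_Bx {b : ℕ} (hb : 1 ≤ b) (k : ℕ) : ((Bx b k).card : ℝ) ≤ 9 * (b : ℝ) ^ 2 * 4 ^ k := by
  have hb' : (1 : ℝ) ≤ b := by exact_mod_cast hb
  rw [Bx, card_box2]
  have h1 : (1 : ℝ) ≤ 2 ^ k := one_le_pow₀ (by norm_num)
  have h4 : (4 : ℝ) ^ k = (2 ^ k) ^ 2 := by
    rw [← pow_mul, mul_comm, pow_mul]
    norm_num
  push_cast
  rw [h4]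
  have h5 : 1 ≤ (b : ℝ) * 2 ^ k := by nlinarith
  have h6 : 2 * ((b : ℝ) * 2 ^ k) + 1 ≤ 3 * (b * 2 ^ k) := by linarith
  calc (2 * ((b : ℝ) * 2 ^ k) + 1) ^ 2 ≤ (3 * (b * 2 ^ k)) ^ 2 :=
        pow_le_pow_left₀ (by positivity) h6 2
    _ = _ := by ring

lemma sum_shift {b k : ℕ} {z : Site 2} (hz : z ∈ Bx b (k + 1)) (F : Site 2 → ℝ) (hF : ∀ x, 0 ≤ F x) :
    ∑ u ∈ Bx b k, F (u - z) ≤ ∑ w ∈ Bx b (k + 1 + 1), F w := by
  classical
  have hinj : Set.InjOn (fun u : Site 2 => u - z) (Bx b k : Set (Site 2)) := by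
    intro u _ v _ h
    exact sub_left_injective h
  rw [← Finset.sum_image (f := F) (g := fun u : Site 2 => u - z) hinj]
  refine Finset.sum_le_sum_of_subset_of_nonneg ?_ fun x _ _ => hF x
  intro w hw
  rw [Finset.mem_image] at hw
  obtain ⟨u, hu, rfl⟩ := hw
  rw [Bx, mem_box_nm] at hu hz ⊢
  have h1 := nm_sub_le' u z
  have h2 : (0 : ℝ) ≤ (b : ℝ) * 2 ^ k := by positivity
  push_cast at hu hz ⊢
  rw [pow_succ] at hz
  rw [pow_succ, pow_succ]
  linarith

lemma far_nm {b k : ℕ} (hb : 1 ≤ b) {z u : Site 2} (hz : z ∉ Bx b (k + 1)) (hu : u ∈ Bx b k) :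
    (2 : ℝ) ^ k ≤ nm (u - z) := by
  have hb' : (1 : ℝ) ≤ b := by exact_mod_cast hb
  rw [Bx, mem_box_nm] at hu hz
  push Not at hz
  have h1 := nm_tri z u
  push_cast at hu hz
  rw [pow_succ] at hz
  have h2 : (0 : ℝ) < 2 ^ k := by positivity
  nlinarith [mul_le_mul_of_nonneg_right hb' h2.le]

/-- inverse fourth powers, growth -/
theorem qu_grow (m j : ℕ) : ∑ z ∈ box 2 (m + j), 1 / (1 + nm z) ^ 4 ≤
    ∑ z ∈ box 2 m, 1 / (1 + nm z) ^ 4 +
      (4 / ((m : ℝ) + 1) ^ 2 - 4 / (((m + j : ℕ) : ℝ) + 1) ^ 2) := by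
  induction j with
  | zero => simp
  | succ j ih =>
    rw [← add_assoc, sum_ring (fun x => 1 / (1 + x) ^ 4)]
    have h1 : 8 * (((m + j : ℕ) : ℝ) + 1) * (1 / (1 + (((m + j : ℕ) : ℝ) + 1)) ^ 4) ≤
        4 / (((m + j : ℕ) : ℝ) + 1) ^ 2 - 4 / (((m + j + 1 : ℕ) : ℝ) + 1) ^ 2 := by
      have hn : (0 : ℝ) ≤ ((m + j : ℕ) : ℝ) := Nat.cast_nonneg _
      push_cast
      push_cast at hn
      set n : ℝ := (m : ℝ) + j with hnd
      have e1 : 4 / (n + 1) ^ 2 - 4 / (n + 1 + 1) ^ 2 =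
          4 * (2 * n + 3) / ((n + 1) ^ 2 * (n + 2) ^ 2) := by
        have a1 : (n + 1) ≠ 0 := by positivity
        have a2 : (n + 1 + 1) ≠ 0 := by positivity
        have a3 : (n + 2) ≠ 0 := by positivity
        field_simp
        ring
      rw [e1, mul_one_div, div_le_div_iff₀ (by positivity) (by positivity)]
      have e2 : 1 + (n + 1) = n + 2 := by ring
      rw [e2]
      have h5 : 2 * (n + 1) ^ 3 ≤ (2 * n + 3) * (n + 2) ^ 2 := by
        nlinarith [mul_nonneg hn hn, mul_nonneg hn (mul_nonneg hn hn)]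
      have h6 : 0 ≤ 4 * (n + 2) ^ 2 := by positivity
      nlinarith [mul_le_mul_of_nonneg_left h5 h6]
    linarith

lemma out_cu {b : ℕ} (hb : 1 ≤ b) (k s : ℕ) :
    ∑ y ∈ Bx b s \ Bx b k, 1 / (1 + nm y) ^ 3 ≤ 8 / 2 ^ k := by
  have hb' : (1 : ℝ) ≤ b := by exact_mod_cast hb
  by_cases hks : k ≤ s
  · obtain ⟨j, hj⟩ : ∃ j, b * 2 ^ s = b * 2 ^ k + j := by
      refine ⟨b * 2 ^ s - b * 2 ^ k, ?_⟩
      have : b * 2 ^ k ≤ b * 2 ^ s :=
        Nat.mul_le_mul_left _ (Nat.pow_le_pow_right (by norm_num) hks)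
      omega
    have h1 : Bx b k ⊆ Bx b s := by
      rw [Bx, Bx, hj]
      exact box_mono (Nat.le_add_right _ _)
    have h3 := Finset.sum_sdiff (f := fun y => 1 / (1 + nm y) ^ 3) h1
    have h4 := cu_grow (b * 2 ^ k) j
    rw [← hj] at h4
    have h5 : (0 : ℝ) ≤ 8 / (((b * 2 ^ s : ℕ) : ℝ) + 1) := by positivity
    have h2 : ∑ y ∈ Bx b s \ Bx b k, 1 / (1 + nm y) ^ 3 ≤
        8 / (((b * 2 ^ k : ℕ) : ℝ) + 1) := by
      rw [Bx, Bx] at h3 ⊢
      linarith
    refine h2.trans ?_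
    apply div_le_div_of_nonneg_left (by norm_num) (by positivity)
    push_cast
    have h7 : (0 : ℝ) < 2 ^ k := by positivity
    nlinarith [mul_le_mul_of_nonneg_right hb' h7.le]
  · have h1 : Bx b s ⊆ Bx b k := by
      rw [Bx, Bx]
      exact box_mono (Nat.mul_le_mul_left _ (Nat.pow_le_pow_right (by norm_num) (by omega)))
    rw [Finset.sdiff_eq_empty_iff_subset.2 h1, Finset.sum_empty]
    positivity

lemma out_qu {b : ℕ} (hb : 1 ≤ b) (k s : ℕ) :
    ∑ y ∈ Bx b s \ Bx b k, 1 / (1 + nm y) ^ 4 ≤ 4 / 4 ^ k := by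
  have hb' : (1 : ℝ) ≤ b := by exact_mod_cast hb
  by_cases hks : k ≤ s
  · obtain ⟨j, hj⟩ : ∃ j, b * 2 ^ s = b * 2 ^ k + j := by
      refine ⟨b * 2 ^ s - b * 2 ^ k, ?_⟩
      have : b * 2 ^ k ≤ b * 2 ^ s :=
        Nat.mul_le_mul_left _ (Nat.pow_le_pow_right (by norm_num) hks)
      omega
    have h1 : Bx b k ⊆ Bx b s := by
      rw [Bx, Bx, hj]
      exact box_mono (Nat.le_add_right _ _)
    have h3 := Finset.sum_sdiff (f := fun y => 1 / (1 + nm y) ^ 4) h1
    have h4 := qu_grow (b * 2 ^ k) j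
    rw [← hj] at h4
    have h5 : (0 : ℝ) ≤ 4 / (((b * 2 ^ s : ℕ) : ℝ) + 1) ^ 2 := by positivity
    have h2 : ∑ y ∈ Bx b s \ Bx b k, 1 / (1 + nm y) ^ 4 ≤
        4 / (((b * 2 ^ k : ℕ) : ℝ) + 1) ^ 2 := by
      rw [Bx, Bx] at h3 ⊢
      linarith
    refine h2.trans ?_
    apply div_le_div_of_nonneg_left (by norm_num) (by positivity)
    push_cast
    have h7 : (0 : ℝ) < 2 ^ k := by positivity
    have h4' : (4 : ℝ) ^ k = (2 ^ k) ^ 2 := by
      rw [← pow_mul, mul_comm, pow_mul]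
      norm_num
    rw [h4']
    apply pow_le_pow_left₀ h7.le
    nlinarith [mul_le_mul_of_nonneg_right hb' h7.le]
  · have h1 : Bx b s ⊆ Bx b k := by
      rw [Bx, Bx]
      exact box_mono (Nat.mul_le_mul_left _ (Nat.pow_le_pow_right (by norm_num) (by omega)))
    rw [Finset.sdiff_eq_empty_iff_subset.2 h1, Finset.sum_empty]
    positivity

/-- splitting a sum of a piecewise function over a box -/
lemma split_sum (S T : Finset (Site 2)) (F G H : Site 2 → ℝ) (hG : ∀ x, 0 ≤ G x)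
    (h1 : ∀ x ∈ T, F x = G x) (h2 : ∀ x, x ∉ T → F x = H x) :
    ∑ x ∈ S, F x ≤ ∑ x ∈ T, G x + ∑ x ∈ S \ T, H x := by
  classical
  rw [← Finset.sum_sdiff (Finset.inter_subset_left (s₁ := S) (s₂ := T)), add_comm]
  refine add_le_add ?_ ?_
  · rw [Finset.sum_congr rfl fun x hx => h1 x (Finset.mem_inter.1 hx).2]
    exact Finset.sum_le_sum_of_subset_of_nonneg Finset.inter_subset_right fun x _ _ => hG x
  · rw [Finset.sdiff_inter_self_left]
    exact le_of_eq (Finset.sum_congr rfl fun x hx => h2 x (Finset.mem_sdiff.1 hx).2)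

theorem SMS : SMS_stmt := by
  intro b hb
  have hb' : (1 : ℝ) ≤ b := by exact_mod_cast hb
  obtain ⟨C0, hC0, -, hL2, -, hL4⟩ := LAT b hb
  have hC0' : 0 ≤ C0 := by linarith
  have hbb : (b : ℝ) ≤ (b : ℝ) ^ 2 := by nlinarith
  have hb2 : (1 : ℝ) ≤ (b : ℝ) ^ 2 := by nlinarith
  refine ⟨2 * C0 + 100 * (b : ℝ) ^ 2 + 8, by nlinarith, ?_, ?_, ?_, ?_, ?_, ?_, ?_, ?_⟩
  · intro k
    refine (card_Bx hb k).trans (mul_le_mul_of_nonneg_right ?_ (by positivity))
    nlinarith
  · intro k z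
    have hk : (0 : ℝ) ≤ k := Nat.cast_nonneg k
    by_cases hz : z ∈ Bx b (k + 1)
    · refine (sum_shift hz (fun x => 1 / (1 + nm x) ^ 2) (fun x => by
        have := nm_nonneg x
        positivity)).trans ?_
      refine (hL2 (k + 1)).trans ?_
      push_cast
      nlinarith [mul_nonneg hC0' hk, mul_nonneg (sq_nonneg (b : ℝ)) hk]
    · have h1 : ∀ u ∈ Bx b k, 1 / (1 + nm (u - z)) ^ 2 ≤ 1 / 4 ^ k := by
        intro u hu
        have h2 := far_nm hb hz hu
        have h4' : (4 : ℝ) ^ k = (2 ^ k) ^ 2 := by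
          rw [← pow_mul, mul_comm, pow_mul]
          norm_num
        rw [h4']
        apply one_div_le_one_div_of_le (by positivity)
        exact pow_le_pow_left₀ (by positivity) (by linarith) 2
      refine (Finset.sum_le_sum h1).trans ?_
      rw [Finset.sum_const, nsmul_eq_mul, mul_one_div, div_le_iff₀ (by positivity)]
      refine (card_Bx hb k).trans (mul_le_mul_of_nonneg_right ?_ (by positivity))
      nlinarith [mul_nonneg hC0' hk, mul_nonneg (sq_nonneg (b : ℝ)) hk]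
  · intro k z
    have h2k : (1 : ℝ) ≤ 2 ^ k := one_le_pow₀ (by norm_num)
    by_cases hz : z ∈ Bx b (k + 1)
    · refine (sum_shift hz (fun x => 1 / (1 + nm x)) (fun x => by
        have := nm_nonneg x
        positivity)).trans ?_
      refine (hL4 (b * 2 ^ (k + 1 + 1))).trans ?_
      push_cast
      rw [pow_succ, pow_succ]
      have e1 : 1 ≤ (b : ℝ) ^ 2 * 2 ^ k := by nlinarith
      have e2 : (b : ℝ) * 2 ^ k ≤ (b : ℝ) ^ 2 * 2 ^ k :=
        mul_le_mul_of_nonneg_right hbb (by positivity)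
      have e3 : 0 ≤ C0 * 2 ^ k := by positivity
      nlinarith
    · have h1 : ∀ u ∈ Bx b k, 1 / (1 + nm (u - z)) ≤ 1 / 2 ^ k := by
        intro u hu
        have h2 := far_nm hb hz hu
        apply one_div_le_one_div_of_le (by positivity)
        linarith
      refine (Finset.sum_le_sum h1).trans ?_
      rw [Finset.sum_const, nsmul_eq_mul, mul_one_div, div_le_iff₀ (by positivity)]
      refine (card_Bx hb k).trans ?_
      have h4' : (4 : ℝ) ^ k = 2 ^ k * 2 ^ k := by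
        rw [← mul_pow]
        norm_num
      rw [h4', mul_assoc _ ((2 : ℝ) ^ k) ((2 : ℝ) ^ k)]
      refine mul_le_mul_of_nonneg_right ?_ (by positivity)
      nlinarith
  · intro k s
    refine (out_cu hb k s).trans (div_le_div_of_nonneg_right ?_ (by positivity))
    nlinarith
  · intro k s
    refine (out_qu hb k s).trans (div_le_div_of_nonneg_right ?_ (by positivity))
    nlinarith
  · intro k s
    have h1 := split_sum (Bx b s) (Bx b (k + 1)) (Nk b k) (fun _ => 1 / 4 ^ k)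
      (fun x => 2 ^ k / (1 + nm x) ^ 3) (fun x => by positivity)
      (fun x hx => by unfold Nk; rw [if_pos hx]) (fun x hx => by unfold Nk; rw [if_neg hx])
    refine h1.trans ?_
    have h2 : ∑ x ∈ Bx b (k + 1), (1 : ℝ) / 4 ^ k ≤ 36 * (b : ℝ) ^ 2 := by
      rw [Finset.sum_const, nsmul_eq_mul, mul_one_div, div_le_iff₀ (by positivity)]
      refine (card_Bx hb (k + 1)).trans (le_of_eq ?_)
      ring
    have h3 : ∑ x ∈ Bx b s \ Bx b (k + 1), (2 : ℝ) ^ k / (1 + nm x) ^ 3 ≤ 4 := by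
      have h4 : ∑ y ∈ Bx b s \ Bx b (k + 1), (2 : ℝ) ^ k / (1 + nm y) ^ 3 =
          2 ^ k * ∑ y ∈ Bx b s \ Bx b (k + 1), 1 / (1 + nm y) ^ 3 := by
        rw [Finset.mul_sum]
        refine Finset.sum_congr rfl fun y _ => ?_
        ring
      rw [h4]
      refine (mul_le_mul_of_nonneg_left (out_cu hb (k + 1) s) (by positivity)).trans ?_
      rw [mul_div_assoc', div_le_iff₀ (by positivity), pow_succ]
      linarith
    nlinarith
  · intro k s
    have h1 := split_sum (Bx b s) (Bx b (k + 1)) (fun x => Gk b k x ^ 2) (fun _ => 1 / 4 ^ k)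
      (fun x => 4 ^ k / (1 + nm x) ^ 4) (fun x => by positivity)
      (fun x hx => by
        show Gk b k x ^ 2 = _
        unfold Gk
        rw [if_pos hx, div_pow, one_pow, ← pow_mul, mul_comm k 2, pow_mul]
        norm_num)
      (fun x hx => by
        show Gk b k x ^ 2 = _
        unfold Gk
        rw [if_neg hx, div_pow, ← pow_mul (2 : ℝ), mul_comm k 2, pow_mul (2 : ℝ), ← pow_mul (1 + nm x)]
        norm_num)
    refine h1.trans ?_
    have h2 : ∑ x ∈ Bx b (k + 1), (1 : ℝ) / 4 ^ k ≤ 36 * (b : ℝ) ^ 2 := by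
      rw [Finset.sum_const, nsmul_eq_mul, mul_one_div, div_le_iff₀ (by positivity)]
      refine (card_Bx hb (k + 1)).trans (le_of_eq ?_)
      ring
    have h3 : ∑ x ∈ Bx b s \ Bx b (k + 1), (4 : ℝ) ^ k / (1 + nm x) ^ 4 ≤ 4 := by
      have h4 : ∑ y ∈ Bx b s \ Bx b (k + 1), (4 : ℝ) ^ k / (1 + nm y) ^ 4 =
          4 ^ k * ∑ y ∈ Bx b s \ Bx b (k + 1), 1 / (1 + nm y) ^ 4 := by
        rw [Finset.mul_sum]
        refine Finset.sum_congr rfl fun y _ => ?_
        ring
      rw [h4]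
      refine (mul_le_mul_of_nonneg_left (out_qu hb (k + 1) s) (by positivity)).trans ?_
      rw [mul_div_assoc', div_le_iff₀ (by positivity), pow_succ]
      have : (0 : ℝ) < 4 ^ k := by positivity
      linarith
    nlinarith
  · intro k m x
    have hx0 := nm_nonneg x
    have hA : (1 : ℝ) ≤ 1 + b * 2 ^ (m + 1) := by
      have : (0 : ℝ) ≤ b * 2 ^ (m + 1) := by positivity
      linarith
    have hA2 : (1 : ℝ) ≤ (1 + b * 2 ^ (m + 1)) ^ 2 := one_le_pow₀ hA
    have hsub : Bx b (k + 1) ⊆ Bx b (k + m + 1) := by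
      rw [Bx, Bx]
      exact box_mono (Nat.mul_le_mul_left _ (Nat.pow_le_pow_right (by norm_num) (by omega)))
    have hle : (1 : ℝ) / 2 ^ (k + m) ≤ 1 / 2 ^ k := by
      apply one_div_le_one_div_of_le (by positivity)
      exact pow_le_pow_right₀ (by norm_num) (by omega)
    by_cases h1 : x ∈ Bx b (k + 1)
    · unfold Gk
      rw [if_pos h1, if_pos (hsub h1)]
      refine hle.trans ?_
      have : (0 : ℝ) < 1 / 2 ^ k := by positivity
      nlinarith
    · by_cases h2 : x ∈ Bx b (k + m + 1)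
      · unfold Gk
        rw [if_neg h1, if_pos h2]
        refine hle.trans ?_
        rw [Bx, mem_box_nm] at h2
        have h3 : 1 + nm x ≤ 2 ^ k * (1 + b * 2 ^ (m + 1)) := by
          push_cast at h2
          have e1 : (2 : ℝ) ^ (k + m + 1) = 2 ^ k * 2 ^ (m + 1) := by rw [add_assoc, pow_add]
          rw [e1] at h2
          have e2 : (1 : ℝ) ≤ 2 ^ k := one_le_pow₀ (by norm_num)
          nlinarith
        rw [mul_div_assoc', div_le_div_iff₀ (by positivity) (by positivity)]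
        calc 1 * (1 + nm x) ^ 2 ≤ 1 * (2 ^ k * (1 + b * 2 ^ (m + 1))) ^ 2 := by
              apply mul_le_mul_of_nonneg_left _ (by norm_num)
              exact pow_le_pow_left₀ (by positivity) h3 2
          _ = _ := by ring
      · unfold Gk
        rw [if_neg h1, if_neg h2, pow_add, mul_div_assoc', mul_comm ((2 : ℝ) ^ k) (2 ^ m)]
        apply div_le_div_of_nonneg_right _ (by positivity)
        apply mul_le_mul_of_nonneg_right _ (by positivity)
        have e1 : (2 : ℝ) ^ m ≤ 1 + b * 2 ^ (m + 1) := by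
          rw [pow_succ]
          have : (0 : ℝ) < 2 ^ m := by positivity
          nlinarith
        have e2 : (1 : ℝ) ≤ 2 ^ m := one_le_pow₀ (by norm_num)
        nlinarith

end Pool.Agent.Helper89.MKV
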